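import Pool.Agent.helper52.HY.SpecU

set_option autoImplicit false

open Complex Metric Set Filter Topology MeasureTheory
open Pool.Agent.helper98.ILF Pool.Agent.helper16.Multibrot

noncomputable section

namespace HY

theorem SHU_cont (n l : ℕ) : Continuous fun p : ℂ × ℂ => (fz n p.1)^[l] p.2 := by
  induction l with
  | zero =>
    simp only [Function.iterate_zero, id]
    exact continuous_snd
  | succ l ih =>
    have h : (fun p : ℂ × ℂ => (fz n p.1)^[l + 1] p.2) = fun p : ℂ × ℂ => ((fz n p.1)^[l] p.2) ^ n + p.1 := by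
      funext p
      rw [Function.iterate_succ_apply']
      rfl
    rw [h]
    exact (ih.pow n).add continuous_fst

theorem SHU_filled (n : ℕ) (a w : ℂ) (hn : 2 ≤ n) (h4 : ∀ l : ℕ, ‖(fz n a)^[l] w‖ ≤ 4) : w ∈ filled n a := by
  intro k
  by_contra hlt
  rw [not_le] at hlt
  have h1 := growth hn hlt.le
  have h2 := h4 (k + 1)
  have h3 : (fz n a)^[k + 1] w = ((fun z : ℂ => z ^ n + a)^[k] w) ^ n + a := by
    rw [Function.iterate_succ_apply']
    rfl
  rw [h3] at h2
  have := norm_nonneg a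
  linarith

theorem SHU (hMCL : MCL_stmt) (hVKB : VKB_stmt) (hTMO : V3.TMO_stmt) (hTUL : V3.TUL_stmt)
    (hBRG : BR.BRG_stmt) : SHU_stmt := by
  intro n hn r hr ε hε η hη
  by_contra hcon
  push Not at hcon
  choose c hc hd φ hφ x hx hxf hxe hxη using hcon
  obtain ⟨hcomp, hcl⟩ := hMCL n hn
  have hVanti : ∀ c ∈ multibrot n, ∀ k l : ℕ, l ≤ k → VV n c k ⊆ VV n c l := by
    intro c hc k l hkl
    induction hkl with
    | refl => exact Subset.rfl
    | step h ih =>
      obtain ⟨-, -, -, -, -, -, -, hV, -⟩ := hVKB n c hn hc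
      exact (hV _).trans ih
  have hK : IsCompact (multibrot n ∩ {c : ℂ | Disjoint (ball c r) (hyperbolic n)}) :=
    hcomp.inter_right (hcl r).1
  obtain ⟨a, ⟨ha, had⟩, hlim⟩ := hK.ultrafilter_le_nhds ((hyperfilter ℕ).map c) (by
    have h0 : Tendsto c (hyperfilter ℕ : Filter ℕ) (𝓟 (multibrot n ∩ {c : ℂ | Disjoint (ball c r) (hyperbolic n)})) :=
      tendsto_principal.2 (Eventually.of_forall fun m : ℕ => ⟨hc m, hd m⟩)
    exact h0)
  have hlimc : Tendsto c (hyperfilter ℕ : Filter ℕ) (𝓝 a) := hlim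
  have hU : IsOpen UD := isOpen_ball
  have hbd : ∀ m, ∀ y ∈ UD, ‖φ m y‖ ≤ 4 := by
    intro m y hy
    obtain ⟨-, -, -, -, -, -, hb4, -⟩ := hVKB n (c m) hn (hc m)
    have h1 : φ m y ∈ VV n (c m) m := by
      rw [← (hφ m).img]
      exact mem_image_of_mem _ hy
    have h2 := hb4 m h1
    rw [mem_ball, dist_zero_right] at h2
    exact h2.le
  obtain ⟨F, hF, hconv⟩ := hTMO (hyperfilter ℕ) φ UD hU (by
    intro y hy
    obtain ⟨r, hr, hsubr⟩ := Metric.isOpen_iff.1 hU y hy
    refine ⟨r, hr, 4, Eventually.of_forall fun m => ⟨(hφ m).dif.mono hsubr, fun z hz => hbd m z (hsubr hz)⟩⟩)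
  obtain ⟨x₀, hx₀, hxt⟩ := hTUL (hyperfilter ℕ) x (1 - η) (Eventually.of_forall fun m => by
    have := hxη m
    linarith)
  have hx₀U : x₀ ∈ UD := by
    show x₀ ∈ ball (0 : ℂ) 1
    rw [mem_ball, dist_zero_right]
    linarith
  have h0U : (0 : ℂ) ∈ UD := by
    show (0 : ℂ) ∈ ball (0 : ℂ) 1
    simp
  have hpt : ∀ y ∈ UD, Tendsto (fun m => φ m y) (hyperfilter ℕ : Filter ℕ) (𝓝 (F y)) := by
    intro y hy
    exact hconv.tendsto_at hy
  have hF0 : F 0 = 0 := by
    have h1 := hpt 0 h0U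
    have h2 : (fun m => φ m 0) = fun _ => (0 : ℂ) := by
      funext m
      exact (hφ m).val
    rw [h2] at h1
    exact tendsto_nhds_unique h1 tendsto_const_nhds
  have hFx : ε ≤ ‖F x₀‖ := by
    have h1 : Tendsto (fun m => φ m (x m)) (hyperfilter ℕ : Filter ℕ) (𝓝 (F x₀)) :=
      hconv.tendsto_comp (hF.continuousOn x₀ hx₀U) hx₀U
        (tendsto_nhdsWithin_iff.2 ⟨hxt, Eventually.of_forall hx⟩)
    exact ge_of_tendsto h1.norm (Eventually.of_forall hxe)
  have hFan : AnalyticOnNhd ℂ F UD := hF.analyticOnNhd hU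
  have hFfil : ∀ y ∈ UD, F y ∈ filled n a := by
    intro y hy
    apply SHU_filled n a _ hn
    intro l
    have h1 : Tendsto (fun m => ‖(fz n (c m))^[l] (φ m y)‖) (hyperfilter ℕ : Filter ℕ)
        (𝓝 ‖(fz n a)^[l] (F y)‖) :=
      ((SHU_cont n l).norm.tendsto (a, F y)).comp (hlimc.prodMk_nhds (hpt y hy))
    refine le_of_tendsto h1 ?_
    have h2 : ∀ᶠ m in (hyperfilter ℕ : Filter ℕ), l ≤ m :=
      Nat.hyperfilter_le_atTop (eventually_ge_atTop l)
    filter_upwards [h2] with m hm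
    have h3 : φ m y ∈ VV n (c m) l := by
      apply hVanti _ (hc m) _ _ hm
      rw [← (hφ m).img]
      exact mem_image_of_mem _ hy
    exact le_of_lt h3
  rcases hFan.is_constant_or_isOpen (convex_ball (0 : ℂ) 1).isPreconnected with ⟨w, hw⟩ | hopen
  · have h1 := hw 0 h0U
    have h2 := hw x₀ hx₀U
    rw [h2, ← h1, hF0, norm_zero] at hFx
    linarith
  · have h1 : IsOpen (F '' UD) := hopen UD (fun _ h => h) hU
    have h2 : F '' UD ⊆ interior (filled n a) := by
      apply interior_maximal _ h1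
      rintro _ ⟨y, hy, rfl⟩
      exact hFfil y hy
    have hint := (hBRG n a r hn hr ha had).2.1
    have h3 : (0 : ℂ) ∈ interior (filled n a) := h2 ⟨0, h0U, hF0⟩
    rw [hint] at h3
    exact h3

end HY
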